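import Mathlib
import Pool.Agent.Results.MP_dfec22_gt.AllButExpFew

set_option autoImplicit false

open Finset Polynomial

namespace Pool.Agent.Helper57LSP.TopGap

open Pool.Agent.Results.MP_dfec22_gt.AllButExpFew

theorem numeric : 1 / 2 ≤ Real.cos (37 / 25) - Real.cos 2 := by
  have h1 : Real.cos (37 / 25) - Real.cos 2 = 2 * Real.sin (87 / 50) * Real.sin (13 / 50) := by
    have := Real.cos_sub_cos (37 / 25) 2
    have e1 : ((37 : ℝ) / 25 + 2) / 2 = 87 / 50 := by norm_num
    have e2 : ((37 : ℝ) / 25 - 2) / 2 = -(13 / 50) := by norm_num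
    rw [e1, e2, Real.sin_neg] at this
    linarith
  have h2 : (13 : ℝ) / 50 - (13 / 50) ^ 3 / 6 < Real.sin (13 / 50) :=
    Real.sin_gt_sub_cube (by norm_num)
  have h3 : Real.sin (87 / 50) = Real.cos (87 / 50 - Real.pi / 2) := by
    rw [Real.cos_sub_pi_div_two]
  have h4 : 1 - (87 / 50 - Real.pi / 2) ^ 2 / 2 ≤ Real.cos (87 / 50 - Real.pi / 2) :=
    Real.one_sub_sq_div_two_le_cos
  have hpi := Real.pi_gt_d4
  have hpi2 := Real.pi_lt_d4
  have h5 : 0.9856 ≤ Real.sin (87 / 50) := by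
    rw [h3]
    have : (87 / 50 - Real.pi / 2) ^ 2 ≤ 0.0288 := by
      have a1 : 0 ≤ 87 / 50 - Real.pi / 2 := by linarith
      have a2 : 87 / 50 - Real.pi / 2 ≤ 0.1693 := by linarith
      nlinarith
    linarith
  have h6 : 0.2556 ≤ Real.sin (13 / 50) := by
    have : (0.2556 : ℝ) ≤ 13 / 50 - (13 / 50) ^ 3 / 6 := by norm_num
    linarith
  rw [h1]
  nlinarith

/-- **If `n_(k-1) ≤ (37/50) n_k`, then the admissible polynomial has a simple root on the unit
circle.** -/
theorem result (n : ℕ) (hn : 1 ≤ n) (N : Finset ℕ) (hN : N ⊆ Icc 1 n) (hnN : n ∈ N)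
    (hgap : ∀ m ∈ N, m ≠ n → 50 * m ≤ 37 * n) : HasSimpleUnitRoot n N := by
  apply simple_of_nonpos n hn N hN hnN
  have hn0 : (0 : ℝ) < n := by exact_mod_cast hn
  set M : ℕ := 37 * n / 50 with hM
  have hMn : M < n := by omega
  have hdel : ∀ s ∈ Ico M n, del N s = 1 := by
    intro s hs
    obtain ⟨h1, h2⟩ := Finset.mem_Ico.1 hs
    have : N.filter (fun m => s < m) = {n} := by
      ext x
      simp only [mem_filter, mem_singleton]
      constructor
      · rintro ⟨a1, a2⟩
        by_contra hx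
        have := hgap x a1 hx
        omega
      · rintro rfl; exact ⟨hnN, h2⟩
    rw [del, this]; simp
  have hw : ∀ s ∈ range n, 0 ≤ w n s := by
    intro s hs
    have h1 : ((s + 1 : ℕ) : ℝ) ≤ n := by exact_mod_cast Finset.mem_range.1 hs
    have h2 : ((s + 1 : ℕ) : ℝ) * (2 / n) ≤ 2 :=
      calc ((s + 1 : ℕ) : ℝ) * (2 / n) ≤ n * (2 / n) := mul_le_mul_of_nonneg_right h1 (by positivity)
        _ = 2 := by field_simp
    have h3 : (s : ℝ) * (2 / n) ≤ ((s + 1 : ℕ) : ℝ) * (2 / n) := by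
      apply mul_le_mul_of_nonneg_right _ (by positivity)
      push_cast; linarith
    have := Real.cos_le_cos_of_nonneg_of_le_pi (x := (s : ℝ) * (2 / n))
      (y := ((s + 1 : ℕ) : ℝ) * (2 / n)) (by positivity) (by linarith [Real.pi_gt_three]) h3
    unfold w; linarith
  have h1 : ∑ s ∈ Ico M n, w n s ≤ ∑ s ∈ range n, del N s * w n s := by
    have e : ∑ s ∈ Ico M n, w n s = ∑ s ∈ Ico M n, del N s * w n s := by
      apply Finset.sum_congr rfl
      intro s hs; rw [hdel s hs, one_mul]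
    rw [e]
    apply Finset.sum_le_sum_of_subset_of_nonneg
    · intro s hs; exact Finset.mem_range.2 (Finset.mem_Ico.1 hs).2
    · intro s hs _; exact mul_nonneg (del_nonneg N s) (hw s hs)
  have h2 : ∑ s ∈ Ico M n, w n s = Real.cos (M * (2 / n)) - Real.cos 2 := by
    have a := Finset.sum_range_sub' (fun s : ℕ => Real.cos (s * (2 / (n : ℝ)))) n
    have b := Finset.sum_range_sub' (fun s : ℕ => Real.cos (s * (2 / (n : ℝ)))) M
    have c : (n : ℝ) * (2 / n) = 2 := by field_simp
    simp only [c] at a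
    rw [Finset.sum_Ico_eq_sub _ hMn.le]
    unfold w
    linarith
  have h3 : Real.cos (37 / 25) ≤ Real.cos (M * (2 / n)) := by
    apply Real.cos_le_cos_of_nonneg_of_le_pi (by positivity) (by linarith [Real.pi_gt_three])
    have h4 : (50 : ℝ) * M ≤ 37 * n := by
      have : 50 * M ≤ 37 * n := Nat.mul_div_le _ _
      exact_mod_cast this
    have h5 : (M : ℝ) * (2 / n) = 2 * M / n := by ring
    rw [h5, div_le_div_iff₀ hn0 (by norm_num)]
    linarith
  have h6 : D n N (2 / n) = 1 - 2 * ∑ s ∈ range n, del N s * w n s := rfl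
  have h7 := numeric
  rw [h6]
  linarith

end Pool.Agent.Helper57LSP.TopGap
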